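import Mathlib
import Pool.Agent.H570.LQ.Fin

/-!
# The order of magnitude of the least prime `q` with `a + q d` prime, for almost all pairs `(a, d)`

For every `k ≥ 1` and `ε > 0` there are `c, C > 0` such that for all but `ε H ^ (2 k)` of the vectors of `k` pairs
`(a_i, d_i)` in ANY box of side `H` (not too far from the origin) the following holds if the vector is admissible: the least
PRIME `q` for which all the numbers `a_i + q d_i` are prime exists and lies between `c (log H) ^ k log log H` and
`C (log H) ^ k log log H`. For `k = 1`: the least prime `q` such that `a + q d` is prime has the order of magnitude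
`log H log log H`, for almost all pairs `(a, d)` with `gcd (a, d) = 1` and `2 ∣ a d`.
-/

set_option autoImplicit false

namespace Pool.Agent.Results.MP_8bf9c2_nt.OrderOfLeastPrime

open Finset

/-- the vectors of `k` pairs `v i = (a_i, d_i)` with `s i < a_i ≤ s i + H` and `t i < d_i ≤ t i + H` -/
def Box {k : ℕ} (s t : Fin k → ℕ) (H : ℕ) : Finset (Fin k → ℕ × ℕ) :=
  Fintype.piFinset (fun i => Ioc (s i) (s i + H) ×ˢ Ioc (t i) (t i + H))

/-- no prime divides `x (a_1 + x d_1) ... (a_k + x d_k)` for all `x` -/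
def Admissible {k : ℕ} (v : Fin k → ℕ × ℕ) : Prop :=
  ∀ p : ℕ, p.Prime → ∃ x : ℕ, ¬ p ∣ x ∧ ∀ i, ¬ p ∣ (v i).1 + x * (v i).2

/-- the primes `q` for which all `a_i + q d_i` are prime -/
def Good {k : ℕ} (v : Fin k → ℕ × ℕ) : Set ℕ := {q : ℕ | q.Prime ∧ ∀ i, ((v i).1 + q * (v i).2).Prime}

open Classical in
/-- **The order of magnitude of the least prime `q`.** The second part says that for `k = 1` the admissible pairs are the
pairs with `gcd (a, d) = 1` and `2 ∣ a d`. -/
theorem result :
    (∀ k : ℕ, 1 ≤ k → ∀ ε : ℝ, 0 < ε → ∃ c C : ℝ, 0 < c ∧ 0 < C ∧ ∀ A : ℕ, ∃ H₀ : ℕ, ∀ H : ℕ, H₀ ≤ H →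
      ∀ s t : Fin k → ℕ, (∀ i, (s i : ℝ) ≤ H * Real.log H ^ A ∧ (t i : ℝ) ≤ H * Real.log H ^ A) →
      (((Box s t H).filter (fun v => Admissible v ∧ ¬ ∃ q : ℕ, IsLeast (Good v) q ∧
        c * Real.log H ^ k * Real.log (Real.log H) ≤ q ∧ q ≤ C * Real.log H ^ k * Real.log (Real.log H))).card : ℝ) ≤
      ε * ((Box s t H).card : ℝ)) ∧
    (∀ a d : ℕ, Admissible (fun _ : Fin 1 => (a, d)) ↔ Nat.gcd a d = 1 ∧ 2 ∣ a * d) := by
  refine ⟨fun k hk ε hε => ?_, fun a d => ?_⟩
  · obtain ⟨c, C, hc, hC, h⟩ := Pool.Agent.H570.LQ.main k hk ε hε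
    refine ⟨c, C, hc, hC, fun A => ?_⟩
    obtain ⟨H₀, hH⟩ := Filter.eventually_atTop.1 (h A)
    refine ⟨H₀, fun H hHH s t hst => ?_⟩
    have h1 := hH H hHH s t hst
    have h2 : ((Box s t H).card : ℝ) = (H : ℝ) ^ (2 * k) := by
      unfold Box
      rw [Fintype.card_piFinset]
      simp only [Finset.card_product, Nat.card_Ioc, Nat.add_sub_cancel_left, Finset.prod_const, Finset.card_univ,
        Fintype.card_fin]
      push_cast
      rw [pow_mul, sq]
    rw [h2]
    exact h1
  · constructor
    · intro h
      constructor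
      · by_contra hg
        obtain ⟨p, hp, hpg⟩ := Nat.exists_prime_and_dvd hg
        obtain ⟨x, _, hx⟩ := h p hp
        exact hx 0 ((Nat.dvd_add_right ((hpg.trans (Nat.gcd_dvd_left a d)))).2
          ((hpg.trans (Nat.gcd_dvd_right a d)).mul_left x))
      · obtain ⟨x, hx1, hx2⟩ := h 2 Nat.prime_two
        have hx3 := hx2 0
        simp only at hx3
        have e1 : x % 2 = 1 := by omega
        rcases Nat.mod_two_eq_zero_or_one a with ha | ha
        · exact Dvd.dvd.mul_right (Nat.dvd_of_mod_eq_zero ha) d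
        · rcases Nat.mod_two_eq_zero_or_one d with hd | hd
          · exact Dvd.dvd.mul_left (Nat.dvd_of_mod_eq_zero hd) a
          · exfalso
            apply hx3
            apply Nat.dvd_of_mod_eq_zero
            rw [Nat.add_mod, Nat.mul_mod, e1, ha, hd]
    · rintro ⟨hg, h2⟩ p hp
      rcases hp.eq_two_or_odd with h3 | h3
      · subst h3
        refine ⟨1, by norm_num, fun _ => ?_⟩
        simp only [one_mul]
        intro h4
        rcases (Nat.prime_two.dvd_mul).1 h2 with h5 | h5
        · have h6 : 2 ∣ d := (Nat.dvd_add_right h5).1 h4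
          have := Nat.dvd_gcd h5 h6
          rw [hg] at this
          norm_num at this
        · have h6 : 2 ∣ a := (Nat.dvd_add_left h5).1 h4
          have := Nat.dvd_gcd h6 h5
          rw [hg] at this
          norm_num at this
      · by_cases h4 : p ∣ a + 1 * d
        · refine ⟨2, fun h5 => ?_, fun _ h5 => ?_⟩
          · have := (Nat.prime_dvd_prime_iff_eq hp Nat.prime_two).1 h5
            omega
          · simp only at h5
            have h6 : p ∣ d := by
              have h7 : a + 2 * d = (a + 1 * d) + d := by ring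
              rw [h7] at h5
              exact (Nat.dvd_add_right h4).1 h5
            have h7 : p ∣ a := by
              rw [one_mul] at h4
              exact (Nat.dvd_add_left h6).1 h4
            have h8 := Nat.dvd_gcd h7 h6
            rw [hg] at h8
            exact hp.one_lt.ne' (Nat.dvd_one.1 h8)
        · refine ⟨1, fun h5 => hp.one_lt.ne' (Nat.dvd_one.1 h5), fun _ => h4⟩

end Pool.Agent.Results.MP_8bf9c2_nt.OrderOfLeastPrime
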