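import Pool.Agent.H570.PR.Fin

/-!
# Between Chen's theorem and the question, for all pairs `(a, d)` of polynomial height

For `0 < u < 1/2` and all `X` large, all coprime pairs `(a, d)` with `2 ∣ a d`, `a ≠ 0`,
`|a| ≤ X ^ A`, `1 ≤ d ≤ X ^ A`, with at most `X ^ (max 0 (4 u - 1) + ε)` exceptions (and no exceptions
at all if `u < 1/4`), have at least `δ 𝔖(a d) X / (log X)^2` primes `q ∈ (X / 2, X)` for which all the
prime factors of `a + q d` are larger than `X ^ u` (and whose number, counted with multiplicity, is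
therefore smaller than `log (|a| + d X) / (u log X)`).
-/

set_option autoImplicit false

open Finset Filter Topology

namespace Pool.Agent.Results.MP_8bf9c2_nt.PairsFewExceptions

open Pool.Agent.H570.PR

open Classical in
/-- The primes `q` in `(X / 2, X)` for which `|a + q d| > 1`, every prime factor of `a + q d`
exceeds `X ^ u`, and the number `Ω(a + q d)` of prime factors counted with multiplicity satisfies
`Ω(a + q d) u log X < log (|a| + d X)`. -/
noncomputable def good (X : ℕ) (u : ℝ) (a : ℤ) (d : ℕ) : Finset ℕ :=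
  (Finset.range X).filter (fun q => q.Prime ∧ X < 2 * q ∧ 1 < (a + q * d).natAbs ∧
    (∀ p : ℕ, p.Prime → (p : ℤ) ∣ a + q * d → (X : ℝ) ^ u < p) ∧
    (ArithmeticFunction.cardFactors (a + q * d).natAbs : ℝ) * (u * Real.log X) <
      Real.log (a.natAbs + d * X))

/-- The arithmetic factor `∏_{p ∣ a d, p > 2} (p - 1) / (p - 2)`. -/
noncomputable def sing (a : ℤ) (d : ℕ) : ℝ :=
  ∏ p ∈ (a.natAbs * d).primeFactors.erase 2, (((p : ℝ) - 1) / ((p : ℝ) - 2))

open Classical in
/-- The coprime pairs `(a, d)` with `2 ∣ a d`, `a ≠ 0`, `|a| ≤ X ^ A` and `1 ≤ d ≤ X ^ A` for which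
there are fewer than `δ 𝔖(a d) X / (log X)^2` primes in `good X u a d`. -/
noncomputable def bad (A : ℕ) (u δ : ℝ) (X : ℕ) : Finset (ℤ × ℕ) :=
  (Finset.Icc (-((X : ℤ) ^ A)) ((X : ℤ) ^ A) ×ˢ Finset.Icc 1 (X ^ A)).filter (fun P =>
    P.1 ≠ 0 ∧ Int.gcd P.1 P.2 = 1 ∧ (2 : ℤ) ∣ P.1 * P.2 ∧
      ((good X u P.1 P.2).card : ℝ) < δ * sing P.1 P.2 * X / Real.log X ^ 2)

open Classical in
/-- the good primes, without the consequence on `Ω` -/
noncomputable def good0 (X : ℕ) (u : ℝ) (a : ℤ) (d : ℕ) : Finset ℕ :=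
  (Finset.range X).filter (fun q => q.Prime ∧ X < 2 * q ∧ 1 < (a + q * d).natAbs ∧
    ∀ p : ℕ, p.Prime → (p : ℤ) ∣ a + q * d → (X : ℝ) ^ u < p)

theorem sing_eq (P : ℤ × ℕ) : sing P.1 P.2 = Pool.Agent.Y882.sgs (NN P) := rfl

theorem cnt_le (X : ℕ) (u : ℝ) (hu : 0 < u) (hX : 2 ≤ X) (P : ℤ × ℕ) (hP2 : 1 ≤ P.2) :
    cnt (X : ℝ) (2 * (X : ℝ) ^ u) P ≤ (good0 X u P.1 P.2).card + 2 := by
  classical
  have hXr : (2 : ℝ) ≤ X := by exact_mod_cast hX
  have hXu : 1 < (X : ℝ) ^ u := Real.one_lt_rpow (by linarith) hu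
  have hd0 : (P.2 : ℤ) ≠ 0 := by
    have : 0 < P.2 := hP2
    exact_mod_cast this.ne'
  set U1 := (Icc 1 X).filter (fun q : ℕ => P.1 + q * P.2 = 1) with hU1
  set U2 := (Icc 1 X).filter (fun q : ℕ => P.1 + q * P.2 = -1) with hU2
  have hc1 : U1.card ≤ 1 := by
    rw [card_le_one]
    intro m hm m' hm'
    rw [hU1, mem_filter] at hm hm'
    have h4 : (m : ℤ) * P.2 = m' * P.2 := by linarith [hm.2, hm'.2]
    exact_mod_cast mul_right_cancel₀ hd0 h4
  have hc2 : U2.card ≤ 1 := by
    rw [card_le_one]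
    intro m hm m' hm'
    rw [hU2, mem_filter] at hm hm'
    have h4 : (m : ℤ) * P.2 = m' * P.2 := by linarith [hm.2, hm'.2]
    exact_mod_cast mul_right_cancel₀ hd0 h4
  have hsub : (Icc 1 ⌊(X : ℝ)⌋₊).filter (fun p : ℕ => p.Prime ∧ (X : ℝ) / 2 < p ∧ (p : ℝ) < X ∧
    ∀ q : ℕ, q.Prime → q ∣ sh P p → 2 * (X : ℝ) ^ u ≤ q) ⊆
      good0 X u P.1 P.2 ∪ (U1 ∪ U2) := by
    intro q hq
    rw [mem_filter, Nat.floor_natCast] at hq
    obtain ⟨h1, h2, h3, h4, h5⟩ := hq
    rw [mem_union, mem_union]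
    by_cases h6 : P.1 + q * P.2 = 1
    · right; left
      rw [hU1, mem_filter]
      exact ⟨h1, h6⟩
    by_cases h7 : P.1 + q * P.2 = -1
    · right; right
      rw [hU2, mem_filter]
      exact ⟨h1, h7⟩
    left
    have h8 : P.1 + q * P.2 ≠ 0 := by
      intro h9
      have h10 := h5 2 Nat.prime_two (by unfold sh; rw [h9]; simp)
      push_cast at h10
      linarith
    unfold good0
    rw [mem_filter, mem_range]
    refine ⟨by exact_mod_cast h4, h2, ?_, by omega, ?_⟩
    · have h9 : (X : ℝ) < ((2 * q : ℕ) : ℝ) := by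
        push_cast
        linarith
      exact_mod_cast h9
    · intro p hp hpd
      have h9 := h5 p hp (by
        unfold sh
        exact Int.natCast_dvd.1 hpd)
      linarith
  unfold cnt
  refine (card_le_card hsub).trans ?_
  refine (card_union_le _ _).trans ?_
  have := card_union_le U1 U2
  omega

/-- the number of prime factors -/
theorem good_eq (X : ℕ) (hX : 2 ≤ X) (u : ℝ) (a : ℤ) (d : ℕ) :
    good X u a d = good0 X u a d := by
  classical
  unfold good good0
  apply filter_congr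
  intro q hq
  rw [mem_range] at hq
  refine ⟨fun h => ⟨h.1, h.2.1, h.2.2.1, h.2.2.2.1⟩, fun h => ⟨h.1, h.2.1, h.2.2.1, h.2.2.2, ?_⟩⟩
  obtain ⟨h2, h3, h4, h5⟩ := h
  set N := (a + q * d).natAbs with hN
  have hN0 : N ≠ 0 := by omega
  have hXr : (2 : ℝ) ≤ X := by exact_mod_cast hX
  have hX0 : (0 : ℝ) < X := by linarith
  have h6 : N ≤ a.natAbs + d * X := by
    rw [hN]
    refine (Int.natAbs_add_le _ _).trans ?_
    rw [Int.natAbs_mul, Int.natAbs_natCast, Int.natAbs_natCast, mul_comm q d]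
    exact Nat.add_le_add_left (Nat.mul_le_mul_left _ hq.le) _
  have h6' : (N : ℝ) ≤ a.natAbs + d * X := by exact_mod_cast h6
  have h7 : ((X : ℝ) ^ u) ^ (ArithmeticFunction.cardFactors N) < N := by
    have h8 : (N.primeFactorsList.map (fun p : ℕ => (p : ℝ))).prod = N := by
      rw [← Nat.cast_list_prod, Nat.prod_primeFactorsList hN0]
    rw [ArithmeticFunction.cardFactors_apply]
    have h9 : ∀ l : List ℕ, l ≠ [] → (∀ p ∈ l, (X : ℝ) ^ u < p) →
        ((X : ℝ) ^ u) ^ l.length < (l.map (fun p : ℕ => (p : ℝ))).prod := by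
      intro l
      induction l with
      | nil => intro h; exact absurd rfl h
      | cons b l ih =>
        intro _ hl
        rw [List.length_cons, List.map_cons, List.prod_cons, pow_succ, mul_comm]
        have hb := hl b List.mem_cons_self
        have hXu : 0 < (X : ℝ) ^ u := by positivity
        rcases eq_or_ne l [] with h10 | h10
        · subst h10
          simpa using hb
        · have h11 := ih h10 fun p hp => hl p (List.mem_cons_of_mem _ hp)
          exact mul_lt_mul'' hb h11 hXu.le (by positivity)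
    rw [← h8]
    apply h9
    · rw [Ne, Nat.primeFactorsList_eq_nil]
      omega
    · intro p hp
      have hp1 := Nat.prime_of_mem_primeFactorsList hp
      exact h5 p hp1 (Int.natCast_dvd.2 (Nat.dvd_of_mem_primeFactorsList hp))
  have hN1 : (0 : ℝ) < N := by
    have : 0 < N := by omega
    exact_mod_cast this
  have h10 : (ArithmeticFunction.cardFactors N : ℝ) * (u * Real.log X) =
      Real.log (((X : ℝ) ^ u) ^ (ArithmeticFunction.cardFactors N)) := by
    rw [Real.log_pow, Real.log_rpow hX0]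
  rw [h10]
  refine lt_of_lt_of_le (Real.log_lt_log (by positivity) h7) ?_
  exact Real.log_le_log hN1 h6'

/-- **Between Chen's theorem and the question, for all pairs `(a, d)` of polynomial height.** -/
theorem result (A : ℕ) (u ε : ℝ) (hu : 0 < u) (hu2 : u < 1 / 2) (hε : 0 < ε) :
    ∃ δ : ℝ, 0 < δ ∧ ∃ X0 : ℕ, ∀ X : ℕ, X0 ≤ X →
      ((bad A u δ X).card : ℝ) ≤ (X : ℝ) ^ (max 0 (4 * u - 1) + ε) ∧
        (u < 1 / 4 → bad A u δ X = ∅) := by
  classical
  obtain ⟨δ, hδ, X1, H⟩ := main A u ε hu hu2 hε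
  have ev := Pool.Agent.Y882.polylog (4 / δ) 2 1 one_pos
  obtain ⟨X2, H2⟩ := eventually_atTop.1 ev
  refine ⟨δ / 2, by positivity, max (max X1 X2) 3, ?_⟩
  intro X hX
  have hX1 : X1 ≤ X := (le_max_left _ _).trans ((le_max_left _ _).trans hX)
  have hX2 : X2 ≤ X := (le_max_right _ _).trans ((le_max_left _ _).trans hX)
  have hX3 : 3 ≤ X := (le_max_right _ _).trans hX
  have hXr : (3 : ℝ) ≤ X := by exact_mod_cast hX3
  have hL : 0 < Real.log X := Real.log_pos (by linarith)
  have h2 := H2 X hX2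
  rw [Real.rpow_one] at h2
  apply H X hX1
  intro P hP
  unfold bad at hP
  rw [mem_filter, mem_product, mem_Icc, mem_Icc] at hP
  obtain ⟨⟨⟨g1, g2⟩, g3, g4⟩, g5, g6, g7, g8⟩ := hP
  refine ⟨g5, ?_, g3, g4, g6, ?_, ?_⟩
  · have : |P.1| ≤ (X : ℤ) ^ A := abs_le.2 ⟨g1, g2⟩
    rw [Int.abs_eq_natAbs] at this
    exact_mod_cast this
  · unfold NN
    rw [even_iff_two_dvd]
    have h3 := Int.natAbs_dvd_natAbs.2 g7
    rw [Int.natAbs_mul, Int.natAbs_natCast] at h3
    exact h3
  · have h3 := cnt_le X u hu (by omega) P g3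
    rw [← good_eq X (by omega)] at h3
    have h4 : (cnt (X : ℝ) (2 * (X : ℝ) ^ u) P : ℝ) ≤ (good X u P.1 P.2).card + 2 := by
      exact_mod_cast h3
    have h5 := Pool.Agent.Y882.one_le_sgs (NN P)
    have h6 : 2 ≤ δ / 2 * X / Real.log X ^ 2 := by
      rw [le_div_iff₀ (by positivity)]
      have h7 := mul_le_mul_of_nonneg_left h2 (show 0 ≤ δ / 2 by positivity)
      have h8 : δ / 2 * (4 / δ * Real.log X ^ 2) = 2 * Real.log X ^ 2 := by
        field_simp
        ring
      linarith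
    have h7 : δ / 2 * X / Real.log X ^ 2 ≤ δ / 2 * X / Real.log X ^ 2 *
        Pool.Agent.Y882.sgs (NN P) := le_mul_of_one_le_right (by positivity) h5
    have h8 : δ / 2 * sing P.1 P.2 * X / Real.log X ^ 2 =
        δ / 2 * X / Real.log X ^ 2 * Pool.Agent.Y882.sgs (NN P) := by
      rw [sing_eq]
      ring
    rw [h8] at g8
    have h9 : δ * X / Real.log X ^ 2 * Pool.Agent.Y882.sgs (NN P) =
        δ / 2 * X / Real.log X ^ 2 * Pool.Agent.Y882.sgs (NN P) +
        δ / 2 * X / Real.log X ^ 2 * Pool.Agent.Y882.sgs (NN P) := by ring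
    rw [h9]
    linarith

end Pool.Agent.Results.MP_8bf9c2_nt.PairsFewExceptions
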