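import Pool.Agent.H561.E3.K13

/-!
# Primes `q` for which `a_1 + q d_1, …, a_k + q d_k` are products of exactly two primes, with the smaller factors in arbitrary sets

Let `d_1, …, d_k` be nonzero integers (`k ≥ 1`). For every `ε > 0` there is `η > 0` such that for all `A`, `B` and all large `x` the
following holds. Let `(N₁, N₂] ⊆ [0, x]` be an interval of length at least `x / (log x) ^ B`, let
`[r_1, r_1 + H) × … × [r_k, r_k + H)` be ANY box of side `H ≥ exp ((log x) ^ (1 - η))` such that the values `a_i + q d_i` are in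
`[1, x]` for `q ∈ (N₁, N₂]` and `a` in the box, and let `S_1, …, S_k` be ARBITRARY sets of primes. For all `a` in the box, except at
most `H ^ k / (log x) ^ A`, for which the forms `n, a_1 + n d_1, …, a_k + n d_k` are pairwise not proportional and admissible (no
prime divides `n ∏_i (a_i + n d_i)` for all `n`; for `k = 1` this is `gcd(a, d) = 1`, `2 ∣ a d`): the number of the primes
`q ∈ (N₁, N₂]` such that every `a_i + q d_i` is a product `p_i p_i'` of two primes `p_i ≤ p_i'` with `p_i ∈ S_i` differs from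

`𝔖 * ∏_i (∑_{p ∈ S_i, p ≤ √x} 1 / p) * (N₂ - N₁) / (log x) ^ (k + 1)`

by at most `ε 𝔖 (log log x) ^ k (N₂ - N₁) / (log x) ^ (k + 1)`, where `𝔖 = ∏_p (1 - 1 / p) ^ (-(k + 1)) (1 - ω(p) / p)`.

If all the `S_i` are the set of all primes, this is the asymptotic formula for the number of the primes `q` for which all the
`a_i + q d_i` are products of two primes (the sums are `log log x + O(1)`). In general it says that the smaller prime factors
`p_1, …, p_k` are distributed like independent random primes, each prime `p ≤ √x` being taken with probability proportional to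
`1 / p`: for instance `log log p_i / log log x` (`i ≤ k`) are independent and uniformly distributed in `[0, 1]`.

Proof: `Pool.Agent.H561.E3` (circle method in short intervals, arbitrary weights; the formula holds with relative error `ε` for
sets `S_i` of primes between a power of `log x` and `exp ((log x) ^ (1 - η))`; upper bound sieve for the other prime factors).
-/

set_option autoImplicit false

namespace Pool.Agent.Results.MP_8bf9c2_nt.SemiprimesAnyFactors

open Finset Filter

/-- `m` is a product `p p'` of two primes `p ≤ p'` with `p` in `S` -/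
def SplitsIn (S : Set ℕ) (m : ℤ) : Prop := ∃ p p' : ℕ, p.Prime ∧ p'.Prime ∧ p ≤ p' ∧ p ∈ S ∧ m = p * p'

open Classical in
/-- the number of the primes `q`, `N₁ < q ≤ N₂`, such that every `a_i + q d_i` is a product `p p'` of primes `p ≤ p'`, `p ∈ S_i` -/
noncomputable def count {k : ℕ} (d a : Fin k → ℤ) (S : Fin k → Set ℕ) (N₁ N₂ : ℕ) : ℕ :=
  ((Ioc N₁ N₂).filter (fun q : ℕ => q.Prime ∧ ∀ i, SplitsIn (S i) (a i + q * d i))).card

open Classical in
/-- the number of the solutions `n` modulo `p` of `n ∏_i (a_i + n d_i) ≡ 0` -/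
noncomputable def ω {k : ℕ} (d a : Fin k → ℤ) (p : ℕ) : ℕ :=
  ((range p).filter (fun n : ℕ => (p : ℤ) ∣ (n : ℤ) * ∏ i, (a i + (n : ℤ) * d i))).card

/-- the singular series -/
noncomputable def singularSeries {k : ℕ} (d a : Fin k → ℤ) : ℝ :=
  ∏' p : Nat.Primes, (1 - 1 / ((p : ℕ) : ℝ))⁻¹ ^ (k + 1) * (1 - (ω d a p : ℝ) / ((p : ℕ) : ℝ))

open Classical in
/-- the sum of `1 / p` over the primes `p ≤ √x` in `S` -/
noncomputable def reciprocals (S : Set ℕ) (x : ℕ) : ℝ :=
  ∑ p ∈ (Icc 1 (Nat.sqrt x)).filter (fun p => p.Prime ∧ p ∈ S), 1 / (p : ℝ)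

/-- the expected number -/
noncomputable def expected {k : ℕ} (d a : Fin k → ℤ) (S : Fin k → Set ℕ) (x N₁ N₂ : ℕ) : ℝ :=
  singularSeries d a * (∏ i, reciprocals (S i) x) * ((N₂ : ℝ) - N₁) / Real.log x ^ (k + 1)

/-- the expected number for the sets of all primes, up to a factor `1 + o(1)` -/
noncomputable def total {k : ℕ} (d a : Fin k → ℤ) (x N₁ N₂ : ℕ) : ℝ :=
  singularSeries d a * ((N₂ : ℝ) - N₁) * Real.log (Real.log x) ^ k / Real.log x ^ (k + 1)

/-- the forms `n, a_1 + n d_1, …, a_k + n d_k` are pairwise not proportional, and no prime divides `n ∏_i (a_i + n d_i)` for all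
`n` -/
def Admissible {k : ℕ} (d a : Fin k → ℤ) : Prop :=
  (∀ i, a i ≠ 0) ∧ (∀ i j, i ≠ j → d j * a i ≠ d i * a j) ∧
    ∀ p : ℕ, p.Prime → ∃ n : ℕ, ¬ (p : ℤ) ∣ (n : ℤ) * ∏ i, (a i + (n : ℤ) * d i)

open Classical in
/-- the admissible vectors `a` of the box `[r_1, r_1 + H) × … × [r_k, r_k + H)` for which the number differs from the expected one
by more than `ε` times the total -/
noncomputable def exceptional {k : ℕ} (ε : ℝ) (d : Fin k → ℤ) (S : Fin k → Set ℕ) (x N₁ N₂ H : ℕ) (r : Fin k → ℤ) :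
    Finset (Fin k → ℤ) :=
  (Fintype.piFinset (fun i => Ico (r i) (r i + H))).filter
    (fun a => Admissible d a ∧ ¬ |(count d a S N₁ N₂ : ℝ) - expected d a S x N₁ N₂| ≤ ε * total d a x N₁ N₂)

lemma form_eq {k : ℕ} (d a : Fin k → ℤ) (i : Fin k) (n : ℤ) : a i + n * d i = d i * n + a i := by ring

lemma ω_eq {k : ℕ} (d a : Fin k → ℤ) (p : ℕ) : ω d a p = Pool.Agent.H561.E2.omg d a p := by
  classical
  unfold ω Pool.Agent.H561.E2.omg
  congr 1
  ext n
  simp only [mem_filter, form_eq]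

lemma ω_lt {k : ℕ} (a b : Fin k → ℤ) (p : ℕ) (hp : p.Prime) (h : ∃ n : ℕ, ¬ (p : ℤ) ∣ (n : ℤ) * ∏ i, (a i * (n : ℤ) + b i)) :
    Pool.Agent.H561.E2.omg a b p < p := by
  classical
  obtain ⟨n, hn⟩ := h
  have h1 : ¬ (p : ℤ) ∣ ((n % p : ℕ) : ℤ) * ∏ i, (a i * ((n % p : ℕ) : ℤ) + b i) := by
    intro h2
    apply hn
    have h3 : (n : ℤ) ≡ ((n % p : ℕ) : ℤ) [ZMOD p] := by
      rw [Int.natCast_mod]
      exact (Int.mod_modEq _ _).symm
    have h4 : (n : ℤ) * ∏ i, (a i * (n : ℤ) + b i) ≡ ((n % p : ℕ) : ℤ) * ∏ i, (a i * ((n % p : ℕ) : ℤ) + b i) [ZMOD p] := by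
      apply Int.ModEq.mul h3
      have h5 : ∀ T : Finset (Fin k), ∏ i ∈ T, (a i * (n : ℤ) + b i) ≡ ∏ i ∈ T, (a i * ((n % p : ℕ) : ℤ) + b i) [ZMOD p] := by
        intro T
        induction T using Finset.induction_on with
        | empty => simp
        | insert x T hx ih =>
          rw [prod_insert hx, prod_insert hx]
          exact Int.ModEq.mul ((h3.mul_left _).add_right _) ih
      exact h5 univ
    exact (Int.ModEq.dvd_iff h4).2 h2
  have h2 : (range p).filter (fun n : ℕ => (p : ℤ) ∣ (n : ℤ) * ∏ i, (a i * (n : ℤ) + b i)) ⊂ range p := by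
    rw [Finset.ssubset_iff_of_subset (filter_subset _ _)]
    refine ⟨n % p, mem_range.2 (Nat.mod_lt _ hp.pos), fun h3 => ?_⟩
    rw [mem_filter] at h3
    exact h1 h3.2
  have h3 := card_lt_card h2
  rw [card_range] at h3
  unfold Pool.Agent.H561.E2.omg
  convert h3

lemma rec_eq (S : Set ℕ) (x : ℕ) : reciprocals S x = Pool.Agent.H561.E3.sg S (Nat.sqrt x) := by
  classical
  unfold reciprocals Pool.Agent.H561.E3.sg
  apply sum_congr _ (fun _ _ => rfl)
  ext p
  rw [Pool.Agent.H561.E3.mem_SF, Pool.Agent.H373R2.T7.mem_pz]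
  simp only [mem_filter, mem_Icc]
  constructor
  · rintro ⟨⟨h1, h2⟩, h3, h4⟩
    exact ⟨⟨h2, h3⟩, h4⟩
  · rintro ⟨⟨h2, h3⟩, h4⟩
    exact ⟨⟨h3.one_le, h2⟩, h3, h4⟩

/-- **Primes `q` for which the `a_i + q d_i` are products of two primes with the smaller prime factors in arbitrary sets, for almost
all vectors `a` of every box of side at least `exp ((log x) ^ (1 - η))`.** -/
theorem result (k : ℕ) (hk : 0 < k) (d : Fin k → ℤ) (hd : ∀ i, d i ≠ 0) (ε : ℝ) (hε : 0 < ε) :
    ∃ η : ℝ, 0 < η ∧ ∀ A B : ℕ, ∀ᶠ x : ℕ in atTop, ∀ (S : Fin k → Set ℕ) (N₁ N₂ H : ℕ) (r : Fin k → ℤ),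
      N₂ ≤ x → x / Real.log x ^ B ≤ (N₂ : ℝ) - N₁ → Real.exp (Real.log x ^ (1 - η)) ≤ H →
      (∀ i, ∀ q ∈ Ioc N₁ N₂, 1 ≤ r i + (q : ℤ) * d i ∧ r i + (q : ℤ) * d i + H ≤ x) →
        ((exceptional ε d S x N₁ N₂ H r).card : ℝ) ≤ (H : ℝ) ^ k / Real.log x ^ A := by
  classical
  obtain ⟨η, hη0, _, hT⟩ := Pool.Agent.H561.E3.e2S k hk d hd ε hε
  refine ⟨η, hη0, fun A B => ?_⟩
  obtain ⟨X₀, hT⟩ := hT A B
  refine Filter.eventually_atTop.2 ⟨max X₀ 3, fun x hx S N₁ N₂ H r hN2 hNN hH hb => ?_⟩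
  have hx3 : 3 ≤ x := (le_max_right _ _).trans hx
  have hL : 0 < Real.log x := Real.log_pos (by exact_mod_cast (by omega : 1 < x))
  have hN12 : N₁ < N₂ := by
    have h1 : (0 : ℝ) < x / Real.log x ^ B := by
      have : (0 : ℝ) < x := by exact_mod_cast (by omega : 0 < x)
      positivity
    have h2 : (N₁ : ℝ) < N₂ := by linarith
    exact_mod_cast h2
  have h0 := hT x ((le_max_left _ _).trans hx) N₁ N₂ hN12 hN2 hNN r H hH (fun i n hn => by
    have h1 := hb i n hn
    rw [form_eq] at h1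
    exact h1) S
  refine le_trans ?_ h0
  have hsub : exceptional ε d S x N₁ N₂ H r ⊆ (Fintype.piFinset (fun i : Fin k => Ico (r i) (r i + H))).filter (fun h =>
      Pool.Agent.H561.E2.NDeg d h ∧ Pool.Agent.H561.E2.Adm d h ∧
      ¬ |(Pool.Agent.H561.E3.CS d h S N₁ N₂ : ℝ) - Pool.Agent.H561.E3.MS d h S x N₁ N₂| ≤ ε * Pool.Agent.H561.E3.ME d h x N₁ N₂) := by
    intro a hh
    unfold exceptional at hh
    rw [mem_filter] at hh
    rw [mem_filter]
    obtain ⟨h1, ⟨h2, h3, h4⟩, h5⟩ := hh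
    refine ⟨h1, ⟨h2, ?_⟩, ?_, ?_⟩
    · intro i j hij h6
      unfold Pool.Agent.H561.E2.DD at h6
      exact h3 i j hij (by linarith)
    · rw [Pool.Agent.H561.E2.adm_iff]
      intro p hp
      apply ω_lt d a p hp
      obtain ⟨n, hn⟩ := h4 p hp
      simp only [form_eq] at hn
      exact ⟨n, hn⟩
    · have e0 : singularSeries d a = Pool.Agent.H561.E2.singT d a := by
        rw [← Pool.Agent.H561.E2.singD_eq]
        unfold singularSeries Pool.Agent.H561.E2.singD
        apply tprod_congr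
        intro p
        rw [ω_eq]
      have e1 : count d a S N₁ N₂ = Pool.Agent.H561.E3.CS d a S N₁ N₂ := by
        unfold count Pool.Agent.H561.E3.CS
        congr 1
        apply filter_congr
        intro n _
        apply and_congr_right
        intro _
        apply forall_congr'
        intro i
        unfold SplitsIn Pool.Agent.H561.E2.LFo
        rw [form_eq]
      have e2 : expected d a S x N₁ N₂ = Pool.Agent.H561.E3.MS d a S x N₁ N₂ := by
        unfold expected Pool.Agent.H561.E3.MS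
        rw [e0]
        simp only [rec_eq]
      have e3 : total d a x N₁ N₂ = Pool.Agent.H561.E3.ME d a x N₁ N₂ := by
        unfold total Pool.Agent.H561.E3.ME
        rw [e0]
      rw [← e1, ← e2, ← e3]
      exact h5
  exact_mod_cast card_le_card hsub

end Pool.Agent.Results.MP_8bf9c2_nt.SemiprimesAnyFactors
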